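import Pool.Agent.H32.RK.TargetsA
import Pool.Agent.H32.RK.TargetsB

/-!
# Pairs of quadratic forms over a number field (`MP_63b6b1_nt`), row PA1: a count of pairs
-/

set_option autoImplicit false

open Finset NumberField Pool.Agent.H32.RQ Pool.Agent.H32.RK

namespace Pool.Agent.H54.RK

theorem norm_le_of_le {K : Type} [Field K] [NumberField K] {I J : Ideal (𝓞 K)} (h : I ≤ J)
    (hI : I ≠ ⊥) : Ideal.absNorm J ≤ Ideal.absNorm I := by
  refine Nat.le_of_dvd ?_ (Ideal.absNorm_dvd_absNorm_of_le h)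
  rw [Nat.pos_iff_ne_zero, Ne, Ideal.absNorm_eq_zero_iff]
  exact hI

theorem place_sub {K : Type} [Field K] [NumberField K] (w : InfinitePlace K) (a b : K) :
    w (a - b) ≤ w a + w b := by
  rw [← w.norm_embedding_eq, ← w.norm_embedding_eq, ← w.norm_embedding_eq, map_sub]
  exact norm_sub_le _ _

theorem pf_PA1 (K : Type) [Field K] [NumberField K] (hLAT : T_LAT K) (hNRM : T_NRM K) :
    T_PA1 K := by
  classical
  obtain ⟨C, hC1, hL⟩ := hLAT
  obtain ⟨n1, n2, n3, n4, n5, n6, n7⟩ := hNRM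
  have hC0 : 0 < C := by linarith
  have h2d : (1 : ℝ) ≤ 2 ^ dg K := one_le_pow₀ (by norm_num)
  have h4d : (1 : ℝ) ≤ 4 ^ dg K := one_le_pow₀ (by norm_num)
  refine ⟨4 * C ^ 2 * 4 ^ dg K, ?_, ?_⟩
  · have h1 : 1 ≤ C ^ 2 := one_le_pow₀ hC1
    nlinarith
  intro x₀ z₀ 𝔤 D B κ S hg hx0 hz0 hκ hB hBx hD hS hex
  obtain ⟨P, hP⟩ : ∃ P, P = pm D := ⟨_, rfl⟩
  have hP0 : 0 < P := by rw [hP]; exact n7 D hD
  obtain ⟨𝔥, h𝔥⟩ : ∃ 𝔥, 𝔥 = Ideal.span {x₀} * 𝔤 ⊔ Ideal.span {z₀} := ⟨_, rfl⟩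
  have hsx : Ideal.span {x₀} ≠ (⊥ : Ideal (𝓞 K)) := by
    rw [Ne, Ideal.span_singleton_eq_bot]
    exact hx0
  have hxg : Ideal.span {x₀} * 𝔤 ≠ ⊥ := mul_ne_zero hsx hg
  have hhne : 𝔥 ≠ ⊥ := by
    intro h
    apply hxg
    rw [eq_bot_iff, ← h, h𝔥]
    exact le_sup_left
  have hhg : 𝔥 ≤ 𝔤 := by
    rw [h𝔥]
    refine sup_le Ideal.mul_le_right ?_
    rw [Ideal.span_singleton_le_iff_mem]
    exact hz0
  have hmem : ∀ ξ ζ : 𝓞 K, ζ ∈ 𝔤 → x₀ * ζ - z₀ * ξ ∈ 𝔥 := by
    intro ξ ζ hζ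
    rw [h𝔥]
    refine Ideal.sub_mem _ ?_ ?_
    · exact Ideal.mem_sup_left (Ideal.mul_mem_mul (Ideal.mem_span_singleton_self x₀) hζ)
    · exact Ideal.mem_sup_right (Ideal.mul_mem_right _ _ (Ideal.mem_span_singleton_self z₀))
  obtain ⟨NH, hNH⟩ : ∃ NH : ℝ, NH = (Ideal.absNorm 𝔥 : ℝ) := ⟨_, rfl⟩
  obtain ⟨NG, hNG⟩ : ∃ NG : ℝ, NG = (Ideal.absNorm 𝔤 : ℝ) := ⟨_, rfl⟩
  have hNH0 : 0 < NH := by
    rw [hNH]
    exact_mod_cast Nat.pos_of_ne_zero (by rw [Ne, Ideal.absNorm_eq_zero_iff]; exact hhne)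
  have hNG0 : 0 < NG := by
    rw [hNG]
    exact_mod_cast Nat.pos_of_ne_zero (by rw [Ne, Ideal.absNorm_eq_zero_iff]; exact hg)
  have hGH : NG ≤ NH := by
    rw [hNG, hNH]
    exact_mod_cast norm_le_of_le hhg hhne
  have hw0 : ∀ (a : K) (w : InfinitePlace K), 0 ≤ w a := fun a w => apply_nonneg w a
  have hHP : NH ≤ P := by
    obtain ⟨ξ, ζ, hζ, hne, hw⟩ := hex
    rw [hNH, hP]
    exact (n1 𝔥 _ (hmem ξ ζ hζ) hne).trans (n6 _ _ (fun w => hw0 _ w) hw)
  -- values
  let f : 𝓞 K × 𝓞 K → K := fun q => ((x₀ * q.2 - z₀ * q.1 : 𝓞 K) : K)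
  have hval : ((S.image f).card : ℝ) ≤ 2 * C * 2 ^ dg K * P / NH := by
    have h1 := hL (S.image f) (fun w => 2 * D w) NH hNH0 (fun w => by have := hD w; positivity) (by
      intro t ht t' ht' htt
      rw [Finset.mem_image] at ht ht'
      obtain ⟨q, hq, rfl⟩ := ht
      obtain ⟨q', hq', rfl⟩ := ht'
      constructor
      · intro w
        have h2 := (hS q hq).2.2 w
        have h3 := (hS q' hq').2.2 w
        have h4 : w (f q - f q') ≤ w (f q) + w (f q') := place_sub w _ _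
        change w (f q - f q') ≤ 2 * D w
        change w (f q) ≤ D w at h2
        change w (f q') ≤ D w at h3
        linarith
      · have h5 : f q - f q' = (((x₀ * q.2 - z₀ * q.1) - (x₀ * q'.2 - z₀ * q'.1) : 𝓞 K) : K) := by
          simp [f]
        have h6 : (x₀ * q.2 - z₀ * q.1) - (x₀ * q'.2 - z₀ * q'.1) ≠ 0 := by
          intro h
          apply htt
          rw [← sub_eq_zero, h5, h]
          simp
        rw [h5, hNH]
        exact n1 𝔥 _ (Ideal.sub_mem _ (hmem q.1 q.2 (hS q hq).2.1)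
          (hmem q'.1 q'.2 (hS q' hq').2.1)) h6)
    have h7 : pm (fun w => 2 * D w) = 2 ^ dg K * P := by
      rw [n5 (fun _ => 2) D, n4, hP]
    rw [h7] at h1
    have h8 : 1 ≤ P / NH := by rw [le_div_iff₀ hNH0, one_mul]; exact hHP
    have h9 : 1 ≤ 2 ^ dg K * (P / NH) := by nlinarith
    calc ((S.image f).card : ℝ) ≤ C * (1 + 2 ^ dg K * P / NH) := h1
      _ = C * (1 + 2 ^ dg K * (P / NH)) := by ring
      _ ≤ C * (2 ^ dg K * (P / NH) + 2 ^ dg K * (P / NH)) := by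
          refine mul_le_mul_of_nonneg_left ?_ hC0.le
          linarith
      _ = 2 * C * 2 ^ dg K * P / NH := by ring
  -- the size of `x₀`
  obtain ⟨X, hX⟩ : ∃ X, X = nm (x₀ : K) := ⟨_, rfl⟩
  have hBX : B ^ dg K ≤ κ ^ dg K * X := by
    have h1 := n6 (fun _ => B) (fun w => κ * w (x₀ : K)) (fun _ => hB.le) hBx
    rw [n4, n5 (fun _ => κ) (fun w => w (x₀ : K)), n4] at h1
    rw [hX]
    exact h1
  have hX0 : 0 < X := by
    by_contra h
    push Not at h
    have h1 : 0 < B ^ dg K := by positivity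
    have h2 : κ ^ dg K * X ≤ 0 := mul_nonpos_of_nonneg_of_nonpos (by positivity) h
    linarith
  -- fibres
  have hfib : ∀ E : K, ((S.filter fun q => f q = E).card : ℝ) ≤
      2 * C * (2 * κ) ^ dg K * NH / NG := by
    intro E
    have hcard : (S.filter fun q => f q = E).card =
        ((S.filter fun q => f q = E).image fun q => (q.1 : K)).card := by
      rw [Finset.card_image_of_injOn]
      intro q hq q' hq' hqq
      have hq1 := (Finset.mem_filter.1 hq).2
      have hq2 := (Finset.mem_filter.1 hq').2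
      have h1 : q.1 = q'.1 := RingOfIntegers.ext hqq
      have h2 : x₀ * q.2 - z₀ * q.1 = x₀ * q'.2 - z₀ * q'.1 :=
        RingOfIntegers.ext (hq1.trans hq2.symm)
      rw [h1] at h2
      have h3 : x₀ * q.2 = x₀ * q'.2 := by linear_combination h2
      exact Prod.ext h1 (mul_left_cancel₀ hx0 h3)
    rw [hcard]
    have hν : 0 < X * NG / NH := by positivity
    have h1 := hL ((S.filter fun q => f q = E).image fun q => (q.1 : K)) (fun _ => 2 * B)
      (X * NG / NH) hν (fun _ => by positivity) (by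
      intro t ht t' ht' htt
      rw [Finset.mem_image] at ht ht'
      obtain ⟨q, hq, rfl⟩ := ht
      obtain ⟨q', hq', rfl⟩ := ht'
      rw [Finset.mem_filter] at hq hq'
      constructor
      · intro w
        have h2 := (hS q hq.1).1 w
        have h3 := (hS q' hq'.1).1 w
        have h4 : w ((q.1 : K) - (q'.1 : K)) ≤ w (q.1 : K) + w (q'.1 : K) := place_sub w _ _
        change w ((q.1 : K) - (q'.1 : K)) ≤ 2 * B
        linarith
      · have h5 : ((q.1 : K) - (q'.1 : K)) = ((q.1 - q'.1 : 𝓞 K) : K) := by simp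
        have h6 : q.1 - q'.1 ≠ 0 := by
          intro h
          apply htt
          rw [← sub_eq_zero, h5, h]
          simp
        have h7 : x₀ * q.2 - z₀ * q.1 = x₀ * q'.2 - z₀ * q'.1 :=
          RingOfIntegers.ext (hq.2.trans hq'.2.symm)
        have h8 : Ideal.span {q.1 - q'.1} * 𝔥 ≤ Ideal.span {x₀} * 𝔤 := by
          rw [h𝔥, Ideal.mul_sup]
          refine sup_le ?_ ?_
          · exact Ideal.mul_le_right
          · rw [Ideal.span_singleton_mul_span_singleton, Ideal.span_singleton_le_iff_mem]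
            have h9 : (q.1 - q'.1) * z₀ = x₀ * (q.2 - q'.2) := by linear_combination (-1) * h7
            rw [h9]
            exact Ideal.mul_mem_mul (Ideal.mem_span_singleton_self x₀)
              (Ideal.sub_mem _ (hS q hq.1).2.1 (hS q' hq'.1).2.1)
        have h10 : Ideal.span {q.1 - q'.1} * 𝔥 ≠ ⊥ := by
          refine mul_ne_zero ?_ hhne
          rw [Ne, Submodule.zero_eq_bot, Ideal.span_singleton_eq_bot]
          exact h6
        have h11 := norm_le_of_le h8 h10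
        rw [map_mul, map_mul] at h11
        have h12 : (Ideal.absNorm (Ideal.span {x₀}) : ℝ) * Ideal.absNorm 𝔤 ≤
            Ideal.absNorm (Ideal.span {q.1 - q'.1}) * Ideal.absNorm 𝔥 := by exact_mod_cast h11
        rw [← n2, ← n2, ← hX, ← hNG, ← hNH] at h12
        rw [h5, div_le_iff₀ hNH0]
        exact h12)
    rw [n4] at h1
    have h13 : (2 * B) ^ dg K / (X * NG / NH) ≤ (2 * κ) ^ dg K * (NH / NG) := by
      rw [div_le_iff₀ hν]
      have e1 : (2 * κ) ^ dg K * (NH / NG) * (X * NG / NH) = (2 * κ) ^ dg K * X := by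
        field_simp
      rw [e1, mul_pow, mul_pow, mul_assoc]
      exact mul_le_mul_of_nonneg_left hBX (by positivity)
    have h14 : 1 ≤ NH / NG := by rw [le_div_iff₀ hNG0, one_mul]; exact hGH
    have h15 : (1 : ℝ) ≤ (2 * κ) ^ dg K := one_le_pow₀ (by linarith)
    have h16 : 1 ≤ (2 * κ) ^ dg K * (NH / NG) := by nlinarith
    calc _ ≤ C * (1 + (2 * B) ^ dg K / (X * NG / NH)) := h1
      _ ≤ C * ((2 * κ) ^ dg K * (NH / NG) + (2 * κ) ^ dg K * (NH / NG)) := by
          refine mul_le_mul_of_nonneg_left ?_ hC0.le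
          linarith
      _ = 2 * C * (2 * κ) ^ dg K * NH / NG := by ring
  -- the product
  obtain ⟨R, hR⟩ : ∃ R, R = 2 * C * (2 * κ) ^ dg K * NH / NG := ⟨_, rfl⟩
  have hR0 : 0 ≤ R := by rw [hR]; positivity
  have h1 := Finset.card_le_mul_card_image (f := f) S ⌊R⌋₊ (fun E _ => by
    rw [Nat.le_floor_iff hR0, hR]
    exact hfib E)
  have h2 : (S.card : ℝ) ≤ R * (S.image f).card := by
    have h3 : (S.card : ℝ) ≤ (⌊R⌋₊ : ℝ) * (S.image f).card := by exact_mod_cast h1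
    exact h3.trans (mul_le_mul_of_nonneg_right (Nat.floor_le hR0) (Nat.cast_nonneg _))
  have h4 : (S.card : ℝ) ≤ R * (2 * C * 2 ^ dg K * P / NH) :=
    h2.trans (mul_le_mul_of_nonneg_left hval hR0)
  rw [← hNG, ← hP]
  have e2 : (4 : ℝ) ^ dg K = 2 ^ dg K * 2 ^ dg K := by
    rw [← mul_pow]
    norm_num
  calc (S.card : ℝ) * NG ≤ R * (2 * C * 2 ^ dg K * P / NH) * NG :=
        mul_le_mul_of_nonneg_right h4 hNG0.le
    _ = 4 * C ^ 2 * 4 ^ dg K * κ ^ dg K * P := by
        rw [hR, mul_pow, e2]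
        field_simp
        ring

end Pool.Agent.H54.RK
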