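import Pool.Agent.H32.RK.TargetsA

/-!
# Pairs of quadratic forms over a number field (`MP_63b6b1_nt`), row WFN: the density modulo an
ideal
-/

set_option autoImplicit false

open Finset NumberField Pool.Agent.H32.RQ Pool.Agent.H32.RK

namespace Pool.Agent.H54.RK

section

variable {K : Type} [Field K] [NumberField K]

theorem am_one_le {R : Type} [CommRing R] [Subsingleton R] {s : ℕ} (F : Fin 2 → Mon s → R) :
    1 ≤ Pool.Agent.H32.RK.am F := by
  unfold Pool.Agent.H32.RK.am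
  rw [Nat.one_le_iff_ne_zero]
  have : Nonempty {x : Fin s → R // Prm x ∧ ∀ i, qf (F i) x = 0} :=
    ⟨⟨0, ⟨0, Subsingleton.elim _ _⟩, fun i => Subsingleton.elim _ _⟩⟩
  exact Nat.card_pos.ne'

theorem am_mul (hCRT : T_CRT) {s : ℕ} (a b : Ideal (𝓞 K)) (ha : a ≠ ⊥) (hb : b ≠ ⊥)
    (hab : IsCoprime a b) (c : Fin 2 → Mon s → 𝓞 K) :
    am (cq (a * b) c) = am (cq a c) * am (cq b c) := by
  have h1 : Finite (𝓞 K ⧸ a) := Ideal.finiteQuotientOfFreeOfNeBot a ha
  have h2 : Finite (𝓞 K ⧸ b) := Ideal.finiteQuotientOfFreeOfNeBot b hb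
  have h3 : Finite (𝓞 K ⧸ (a * b)) := Ideal.finiteQuotientOfFreeOfNeBot (a * b)
    (mul_ne_zero ha hb)
  exact hCRT _ _ _ (Ideal.quotientMulEquivQuotientProd a b hab) s (cq (a * b) c)

theorem one_le_norm {a : Ideal (𝓞 K)} (ha : a ≠ ⊥) : 1 ≤ Ideal.absNorm a := by
  rw [Nat.one_le_iff_ne_zero, Ne, Ideal.absNorm_eq_zero_iff]
  exact ha

open Classical in
theorem wfn_core (hHEC : T_HEC K) (hCRT : T_CRT) (s t : ℕ) (c : Fin 2 → Mon s → 𝓞 K)
    (S : Finset (Ideal (𝓞 K))) (hS : ∀ p ∈ S, p ≠ ⊥ ∧ p.IsPrime) (N : Ideal (𝓞 K)) :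
    N ≠ ⊥ → (∀ p : Ideal (𝓞 K), p.IsPrime → p ≠ ⊥ → N ≤ p →
      p ∈ S ∧ N ≤ p ^ (2 * t) ∧ PR t p c) →
    Ideal.absNorm N ^ (s - 2) ≤ am (cq N c) *
      ∏ p ∈ S.filter (fun p => N ≤ p), Ideal.absNorm p ^ (2 * t * (s - 2)) := by
  have hunit : ∀ x : Ideal (𝓞 K), IsUnit x → Ideal.absNorm x ^ (s - 2) ≤ am (cq x c) *
      ∏ p ∈ S.filter (fun p => x ≤ p), Ideal.absNorm p ^ (2 * t * (s - 2)) := by
    intro x hx
    rw [Ideal.isUnit_iff] at hx
    subst hx
    rw [Ideal.absNorm_top, one_pow]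
    have h1 : Subsingleton (𝓞 K ⧸ (⊤ : Ideal (𝓞 K))) := Ideal.Quotient.subsingleton_iff.2 rfl
    have h2 := am_one_le (cq ⊤ c)
    have h3 : 1 ≤ ∏ p ∈ S.filter (fun p => (⊤ : Ideal (𝓞 K)) ≤ p),
        Ideal.absNorm p ^ (2 * t * (s - 2)) := by
      rw [Nat.one_le_iff_ne_zero, Finset.prod_ne_zero_iff]
      intro p hp
      rw [Finset.mem_filter] at hp
      exact pow_ne_zero _ (by have := one_le_norm (hS p hp.1).1; omega)
    exact Nat.mul_le_mul h2 h3
  induction N using UniqueFactorizationMonoid.induction_on_coprime with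
  | h0 => intro h; exact absurd rfl h
  | h1 hx => intro _ _; exact hunit _ hx
  | @hpr p n hp =>
    intro hne h
    have hp0 : p ≠ ⊥ := hp.ne_zero
    have hpp : p.IsPrime := Ideal.isPrime_of_prime hp
    rcases Nat.eq_zero_or_pos n with rfl | hn
    · rw [pow_zero]
      exact hunit 1 isUnit_one
    · have hle : p ^ n ≤ p := Ideal.pow_le_self hn.ne'
      obtain ⟨h1, h2, h3⟩ := h p hpp hp0 hle
      have h4 : 2 * t ≤ n := by
        rw [← Ideal.dvd_iff_le] at h2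
        exact (pow_dvd_pow_iff hp.ne_zero hp.not_isUnit).1 h2
      have h5 := hHEC s t n p c hpp hp0 h4 h3
      have h6 : Ideal.absNorm p ^ (2 * t * (s - 2)) ≤
          ∏ q ∈ S.filter (fun q => p ^ n ≤ q), Ideal.absNorm q ^ (2 * t * (s - 2)) := by
        have h7 := Finset.single_le_prod' (f := fun q : Ideal (𝓞 K) =>
          Ideal.absNorm q ^ (2 * t * (s - 2))) (s := S.filter (fun q => p ^ n ≤ q))
          (fun q hq => Nat.one_le_pow _ _ (one_le_norm (hS q (Finset.mem_filter.1 hq).1).1))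
          (Finset.mem_filter.2 ⟨h1, hle⟩)
        exact h7
      calc Ideal.absNorm (p ^ n) ^ (s - 2)
          = Ideal.absNorm p ^ ((n - 2 * t) * (s - 2)) * Ideal.absNorm p ^ (2 * t * (s - 2)) := by
            rw [map_pow, ← pow_mul, ← pow_add, ← Nat.add_mul, Nat.sub_add_cancel h4]
        _ ≤ _ := Nat.mul_le_mul h5 h6
  | @hcp a b hab iha ihb =>
    intro hne h
    have ha : a ≠ ⊥ := fun h0 => hne (by rw [h0]; exact zero_mul b)
    have hb : b ≠ ⊥ := fun h0 => hne (by rw [h0]; exact mul_zero a)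
    have hco : IsCoprime a b := by
      rw [Ideal.isCoprime_iff_sup_eq]
      have h1 := hab (Ideal.dvd_iff_le.2 (le_sup_left : a ≤ a ⊔ b))
        (Ideal.dvd_iff_le.2 (le_sup_right : b ≤ a ⊔ b))
      exact Ideal.isUnit_iff.1 h1
    have hcop : ∀ p : Ideal (𝓞 K), a ≤ p → IsCoprime (p ^ (2 * t)) b := by
      intro p hap
      apply IsCoprime.pow_left
      rw [Ideal.isCoprime_iff_sup_eq] at hco ⊢
      rw [eq_top_iff, ← hco]
      exact sup_le_sup_right hap b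
    have hcop' : ∀ p : Ideal (𝓞 K), b ≤ p → IsCoprime (p ^ (2 * t)) a := by
      intro p hbp
      apply IsCoprime.pow_left
      rw [Ideal.isCoprime_iff_sup_eq] at hco ⊢
      rw [eq_top_iff, ← hco, sup_comm]
      exact sup_le_sup_right hbp a
    have ga := iha ha (fun p hp hp0 hap => by
      obtain ⟨h1, h2, h3⟩ := h p hp hp0 (Ideal.mul_le_left.trans hap)
      refine ⟨h1, ?_, h3⟩
      rw [← Ideal.dvd_iff_le] at h2 ⊢
      exact (hcop p hap).dvd_of_dvd_mul_right h2)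
    have gb := ihb hb (fun p hp hp0 hbp => by
      obtain ⟨h1, h2, h3⟩ := h p hp hp0 (Ideal.mul_le_right.trans hbp)
      refine ⟨h1, ?_, h3⟩
      rw [← Ideal.dvd_iff_le] at h2 ⊢
      exact (hcop' p hbp).dvd_of_dvd_mul_left h2)
    have hfil : S.filter (fun p => a * b ≤ p) =
        S.filter (fun p => a ≤ p) ∪ S.filter (fun p => b ≤ p) := by
      ext p
      rw [Finset.mem_union, Finset.mem_filter, Finset.mem_filter, Finset.mem_filter]
      constructor
      · rintro ⟨h1, h2⟩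
        rcases ((hS p h1).2.mul_le).1 h2 with h3 | h3
        · exact Or.inl ⟨h1, h3⟩
        · exact Or.inr ⟨h1, h3⟩
      · rintro (⟨h1, h2⟩ | ⟨h1, h2⟩)
        · exact ⟨h1, Ideal.mul_le_left.trans h2⟩
        · exact ⟨h1, Ideal.mul_le_right.trans h2⟩
    have hdis : Disjoint (S.filter (fun p => a ≤ p)) (S.filter (fun p => b ≤ p)) := by
      rw [Finset.disjoint_left]
      intro p h1 h2
      rw [Finset.mem_filter] at h1 h2
      have h3 : a ⊔ b ≤ p := sup_le h1.2 h2.2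
      rw [Ideal.isCoprime_iff_sup_eq.1 hco] at h3
      exact (hS p h1.1).2.ne_top (top_le_iff.1 h3)
    rw [am_mul hCRT a b ha hb hco c, hfil, Finset.prod_union hdis, map_mul, Nat.mul_pow]
    calc Ideal.absNorm a ^ (s - 2) * Ideal.absNorm b ^ (s - 2) ≤ _ := Nat.mul_le_mul ga gb
      _ = _ := by ring

end

/-- **WFN.** -/
theorem pf_WFN (K : Type) [Field K] [NumberField K] (hHEC : T_HEC K) (hCRT : T_CRT) :
    T_WFN K := by
  classical
  intro s t w₀
  set e : ℕ := 2 * t * (s - 2) with he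
  have hfin : {p : Ideal (𝓞 K) | Ideal.absNorm p ≤ w₀}.Finite :=
    Ideal.finite_setOfPred_absNorm_le w₀
  set S : Finset (Ideal (𝓞 K)) := hfin.toFinset.filter (fun p => p ≠ ⊥ ∧ p.IsPrime) with hS
  have hSmem : ∀ p, p ∈ S ↔ Ideal.absNorm p ≤ w₀ ∧ p ≠ ⊥ ∧ p.IsPrime := by
    intro p
    rw [hS, Finset.mem_filter, Set.Finite.mem_toFinset]
    exact Iff.rfl
  have hSP : ∀ p ∈ S, p ≠ ⊥ ∧ p.IsPrime := fun p hp => ((hSmem p).1 hp).2
  set M : ℕ := ∏ p ∈ S, Ideal.absNorm p ^ e with hM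
  have hM0 : 0 < M := by
    refine Finset.prod_pos fun p hp => ?_
    exact pow_pos (one_le_norm (hSP p hp).1) _
  refine ⟨1 / (2 * M), by positivity, ?_⟩
  intro a b c ha hb hab hp1 hp2 hW1
  have hco : IsCoprime a b := Ideal.isCoprime_iff_sup_eq.2 hab
  have h1 := wfn_core hHEC hCRT s t c S hSP a ha (fun p hp hp0 hap => by
    have h2 := hp1 p hp hap
    obtain ⟨h3, h4⟩ := hp2 p hp hp0 h2
    exact ⟨(hSmem p).2 ⟨h2, hp0, hp⟩, h3, h4⟩)
  have h2 : ∏ p ∈ S.filter (fun p => a ≤ p), Ideal.absNorm p ^ e ≤ M :=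
    Finset.prod_le_prod_of_subset_of_one_le' (Finset.filter_subset _ _)
      (fun p hp _ => Nat.one_le_pow _ _ (one_le_norm (hSP p hp).1))
  rw [am_mul hCRT a b ha hb hco c, map_mul]
  have h3 : (Ideal.absNorm a * Ideal.absNorm b) ^ (s - 2) ≤
      2 * M * (am (cq a c) * am (cq b c)) := by
    rw [Nat.mul_pow]
    calc Ideal.absNorm a ^ (s - 2) * Ideal.absNorm b ^ (s - 2)
        ≤ (am (cq a c) * M) * (2 * am (cq b c)) :=
          Nat.mul_le_mul (h1.trans (Nat.mul_le_mul_left _ h2)) hW1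
      _ = _ := by ring
  have h4 : (((Ideal.absNorm a * Ideal.absNorm b : ℕ) : ℝ)) ^ (s - 2) ≤
      2 * M * ((am (cq a c) * am (cq b c) : ℕ) : ℝ) := by exact_mod_cast h3
  have hKR : (0 : ℝ) < 2 * M := by positivity
  rw [div_mul_eq_mul_div, one_mul, div_le_iff₀ hKR]
  linarith

end Pool.Agent.H54.RK
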