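import Pool.Agent.H92.RK.Targets

/-! UP1: a test function on the interval (MP_8f7db2_an). -/

set_option autoImplicit false

open MeasureTheory Set
open scoped ENNReal

namespace Pool.Agent.H54.RK

open Pool.Agent.H92.RK

theorem exists_phi (ε : ℝ) (hε : 0 < ε) : ∃ φ θ : ℝ → ℝ, ContDiff ℝ (⊤ : ℕ∞) φ ∧
    (∀ s, HasDerivAt φ (θ s) s) ∧ (∀ s, 0 ≤ θ s ∧ θ s ≤ 1) ∧ (∀ s, s ≤ ε → φ s = 0) ∧
    ∀ s, s - 2 * ε ≤ φ s ∧ 0 ≤ φ s := by
  let θ : ℝ → ℝ := fun s => Real.smoothTransition ((s - ε) / ε)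
  have hθs : ContDiff ℝ (⊤ : ℕ∞) θ := by
    have h1 : ContDiff ℝ (⊤ : ℕ∞) fun s : ℝ => (s - ε) / ε :=
      (contDiff_id.sub contDiff_const).div_const ε
    exact Real.smoothTransition.contDiff.comp h1
  have hθc : Continuous θ := hθs.continuous
  let φ : ℝ → ℝ := fun s => ∫ u in (0 : ℝ)..s, θ u
  have hd : ∀ s, HasDerivAt φ (θ s) s := fun s => (hθc.integral_hasStrictDerivAt 0 s).hasDerivAt
  have h0 : ∀ s, 0 ≤ θ s := fun s => Real.smoothTransition.nonneg _
  have h1 : ∀ s, θ s ≤ 1 := fun s => Real.smoothTransition.le_one _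
  have hz : ∀ s, s ≤ ε → φ s = 0 := by
    intro s hs
    have h2 : ∀ u ∈ uIcc 0 s, θ u = 0 := by
      intro u hu
      refine Real.smoothTransition.zero_of_nonpos ?_
      refine div_nonpos_of_nonpos_of_nonneg ?_ hε.le
      rw [mem_uIcc] at hu
      rcases hu with hu | hu
      · linarith [hu.2]
      · linarith [hu.2]
    show ∫ u in (0 : ℝ)..s, θ u = 0
    rw [intervalIntegral.integral_congr (g := fun _ => (0 : ℝ)) h2]
    simp
  have hn : ∀ s, 0 ≤ φ s := by
    intro s
    rcases le_or_gt s ε with hs | hs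
    · rw [hz s hs]
    · exact intervalIntegral.integral_nonneg (by linarith) fun u _ => h0 u
  refine ⟨φ, θ, ?_, hd, fun s => ⟨h0 s, h1 s⟩, hz, fun s => ⟨?_, hn s⟩⟩
  · have h2 : deriv φ = θ := funext fun s => (hd s).deriv
    have h3 : ContDiff ℝ ((⊤ : ℕ∞) : WithTop ℕ∞) φ := by
      rw [contDiff_infty_iff_deriv, h2]
      exact ⟨fun s => (hd s).differentiableAt, hθs⟩
    exact h3
  · rcases le_or_gt s (2 * ε) with hs | hs
    · linarith [hn s]
    · have h2 : φ s = φ (2 * ε) + ∫ u in (2 * ε)..s, θ u := by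
        show ∫ u in (0 : ℝ)..s, θ u = (∫ u in (0 : ℝ)..(2 * ε), θ u) + ∫ u in (2 * ε)..s, θ u
        rw [intervalIntegral.integral_add_adjacent_intervals] <;>
          exact hθc.intervalIntegrable _ _
      have h3 : ∀ u ∈ uIcc (2 * ε) s, θ u = 1 := by
        intro u hu
        rw [uIcc_of_le hs.le] at hu
        refine Real.smoothTransition.one_of_one_le ?_
        rw [le_div_iff₀ hε]
        linarith [hu.1]
      rw [h2, intervalIntegral.integral_congr (g := fun _ => (1 : ℝ)) h3]
      rw [intervalIntegral.integral_const, smul_eq_mul, mul_one]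
      linarith [hn (2 * ε)]

theorem pf_UP1 : T_UP1 := by
  intro τ c w₁ a hB ha
  have hτ : 0 < τ := lt_of_lt_of_le one_pos hB.one_le
  have ha0 : 0 < a := by linarith
  have hcc : Continuous c := hB.smooth.continuous
  have hw1 : ContDiff ℝ (⊤ : ℕ∞) fun t : ℝ => t * c t := contDiff_id.mul hB.smooth
  have hwc : Continuous fun t : ℝ => t * c t := hw1.continuous
  have hw1c : Continuous w₁ := continuous_iff_continuousAt.2 fun t => (hB.dw1 t).continuousAt
  have hc0 : ∀ t, 0 ≤ t → t ≤ 1 → 0 ≤ c t := by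
    intro t h0 h1
    rcases h1.eq_or_lt with h | h
    · rw [h, hB.one]
    · exact (hB.pos t h0 h).le
  -- the integrals
  set J : ℝ := ∫ t in (0 : ℝ)..1, t * c t ^ 2 with hJ
  set L : ℝ := ∫ t in (0 : ℝ)..1, c t with hL
  have hJp : 0 < J := by
    refine intervalIntegral.intervalIntegral_pos_of_pos_on
      (Continuous.intervalIntegrable (by fun_prop) _ _) ?_ one_pos
    intro x hx
    have := hB.pos x hx.1.le hx.2
    exact mul_pos hx.1 (pow_pos this 2)
  have hLp : 0 < L := by
    refine intervalIntegral.intervalIntegral_pos_of_pos_on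
      (Continuous.intervalIntegrable hcc _ _) ?_ one_pos
    intro x hx
    exact hB.pos x hx.1.le hx.2
  have hI : ∫ t in (0 : ℝ)..1, w₁ t ^ 2 = τ * J := by
    have h1 : ∀ t ∈ uIcc (0 : ℝ) 1, HasDerivAt (fun t => (t * c t) * w₁ t)
        (w₁ t * w₁ t + (t * c t) * (-τ * c t)) t := fun t _ => (hB.dw t).mul (hB.dw1 t)
    have h2 := intervalIntegral.integral_eq_sub_of_hasDerivAt h1
      (Continuous.intervalIntegrable (by fun_prop) _ _)
    have h3 : (∫ t in (0 : ℝ)..1, (w₁ t * w₁ t + (t * c t) * (-τ * c t))) =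
        (∫ t in (0 : ℝ)..1, w₁ t ^ 2) - τ * J := by
      rw [hJ, ← intervalIntegral.integral_const_mul, ← intervalIntegral.integral_sub]
      · refine intervalIntegral.integral_congr fun t _ => ?_
        ring
      · exact Continuous.intervalIntegrable (by fun_prop) _ _
      · exact Continuous.intervalIntegrable (by fun_prop) _ _
    rw [h3, hB.one] at h2
    simp only [zero_mul, mul_zero, sub_zero] at h2
    linarith
  -- the parameter
  set ε : ℝ := (a - 4 * τ) * J / (4 * a * L) with hε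
  have hεp : 0 < ε := by
    rw [hε]
    apply div_pos
    · exact mul_pos (by linarith) hJp
    · exact mul_pos (by linarith) hLp
  obtain ⟨φ, θ, hφs, hφd, hθ, hφz, hφl⟩ := exists_phi ε hεp
  -- delta
  obtain ⟨δ, hδp, hδ2, hδ⟩ : ∃ δ : ℝ, 0 < δ ∧ δ < 1 / 2 ∧ ∀ x, (|x| < δ ∨ |x - 1| < δ) →
      x * c x ≤ ε := by
    have h1 : ∀ᶠ x in nhds (0 : ℝ), x * c x < ε := by
      have := hwc.tendsto (0 : ℝ)
      rw [zero_mul] at this
      exact this.eventually (gt_mem_nhds hεp)
    have h2 : ∀ᶠ x in nhds (1 : ℝ), x * c x < ε := by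
      have := hwc.tendsto (1 : ℝ)
      rw [hB.one, mul_zero] at this
      exact this.eventually (gt_mem_nhds hεp)
    rw [Metric.eventually_nhds_iff] at h1 h2
    obtain ⟨d1, hd1, h1⟩ := h1
    obtain ⟨d2, hd2, h2⟩ := h2
    refine ⟨min (min d1 d2) (1 / 4), by positivity, ?_, ?_⟩
    · exact lt_of_le_of_lt (min_le_right _ _) (by norm_num)
    · rintro x (hx | hx)
      · refine (h1 ?_).le
        rw [Real.dist_eq, sub_zero]
        exact hx.trans_le ((min_le_left _ _).trans (min_le_left _ _))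
      · refine (h2 ?_).le
        rw [Real.dist_eq]
        exact hx.trans_le ((min_le_left _ _).trans (min_le_right _ _))
  classical
  let F : ℝ → ℝ := fun x => if x ∈ Icc (0 : ℝ) 1 then φ (x * c x) else 0
  have hFin : ∀ x ∈ Icc (0 : ℝ) 1, F x = φ (x * c x) := fun x hx => if_pos hx
  have hFz : ∀ x, x ∉ Icc δ (1 - δ) → F x = 0 := by
    intro x hx
    by_cases h : x ∈ Icc (0 : ℝ) 1
    · rw [hFin x h]
      apply hφz
      apply hδ
      rw [mem_Icc, not_and_or] at hx
      rcases hx with hx | hx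
      · left
        rw [abs_of_nonneg h.1]
        linarith
      · right
        rw [abs_sub_comm, abs_of_nonneg (by linarith [h.2])]
        linarith
    · exact if_neg h
  have hev : ∀ x, x ∉ Ioo (0 : ℝ) 1 → F =ᶠ[nhds x] fun _ => 0 := by
    intro x hx
    rw [mem_Ioo, not_and_or] at hx
    rcases hx with hx | hx
    · have h1 : Iio δ ∈ nhds x := Iio_mem_nhds (by linarith)
      filter_upwards [h1] with y hy
      exact hFz y fun h => absurd h.1 (not_le.2 hy)
    · have h1 : Ioi (1 - δ) ∈ nhds x := Ioi_mem_nhds (by linarith)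
      filter_upwards [h1] with y hy
      exact hFz y fun h => absurd h.2 (not_le.2 hy)
  have hev2 : ∀ x ∈ Ioo (0 : ℝ) 1, F =ᶠ[nhds x] fun y => φ (y * c y) := by
    intro x hx
    filter_upwards [Ioo_mem_nhds hx.1 hx.2] with y hy
    exact hFin y ⟨hy.1.le, hy.2.le⟩
  have hFs : ContDiff ℝ (⊤ : ℕ∞) F := by
    rw [contDiff_iff_contDiffAt]
    intro x
    by_cases hx : x ∈ Ioo (0 : ℝ) 1
    · exact ((hφs.comp hw1).contDiffAt).congr_of_eventuallyEq (hev2 x hx)
    · exact (contDiffAt_const).congr_of_eventuallyEq (hev x hx)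
  have hFc : Continuous F := hFs.continuous
  have hdF : ∀ x, (deriv F x) ^ 2 ≤ (w₁ x) ^ 2 := by
    intro x
    by_cases hx : x ∈ Ioo (0 : ℝ) 1
    · have h1 : HasDerivAt (fun y => φ (y * c y)) (θ (x * c x) * w₁ x) x :=
        (hφd (x * c x)).comp x (hB.dw x)
      rw [(hev2 x hx).deriv_eq, h1.deriv, mul_pow]
      have h2 := hθ (x * c x)
      have h3 : θ (x * c x) ^ 2 ≤ 1 := by nlinarith [h2.1, h2.2]
      nlinarith [sq_nonneg (w₁ x)]
    · rw [(hev x hx).deriv_eq, deriv_const]
      nlinarith [sq_nonneg (w₁ x)]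
  have hG : Continuous fun x => F x ^ 2 / x := by
    rw [continuous_iff_continuousAt]
    intro x
    by_cases hx : x ≤ 0
    · have h1 : (fun y => F y ^ 2 / y) =ᶠ[nhds x] fun _ => (0 : ℝ) := by
        filter_upwards [hev x (fun h => absurd h.1 (not_lt.2 hx))] with y hy
        rw [hy]
        simp
      exact continuousAt_const.congr h1.symm
    · push Not at hx
      exact ((hFc.pow 2).continuousAt).div continuousAt_id hx.ne'
  have hlow : J - 4 * ε * L ≤ ∫ x in (0 : ℝ)..1, F x ^ 2 / x := by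
    have h1 : J - 4 * ε * L = ∫ x in (0 : ℝ)..1, (x * c x ^ 2 - 4 * ε * c x) := by
      rw [intervalIntegral.integral_sub, intervalIntegral.integral_const_mul]
      · exact Continuous.intervalIntegrable (by fun_prop) _ _
      · exact Continuous.intervalIntegrable (by fun_prop) _ _
    rw [h1]
    refine intervalIntegral.integral_mono_on zero_le_one
      (Continuous.intervalIntegrable (by fun_prop) _ _) (hG.intervalIntegrable _ _) ?_
    intro x hx
    rcases hx.1.eq_or_lt with h0 | h0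
    · rw [← h0, hB.zero]
      simp
      linarith
    · rw [hFin x hx, le_div_iff₀ h0]
      have h2 := hφl (x * c x)
      have h3 := hc0 x hx.1 hx.2
      have h4 : 0 ≤ x * c x := mul_nonneg hx.1 h3
      have h5 : (x * c x ^ 2 - 4 * ε * c x) * x = (x * c x) ^ 2 - 4 * ε * (x * c x) := by ring
      rw [h5]
      rcases le_or_gt (x * c x) (2 * ε) with h6 | h6
      · nlinarith [sq_nonneg (φ (x * c x))]
      · have h7 : (x * c x - 2 * ε) ^ 2 ≤ φ (x * c x) ^ 2 :=
          pow_le_pow_left₀ (by linarith) h2.1 2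
        nlinarith [sq_nonneg ε]
  have hεe : a * (J - 4 * ε * L) = 4 * τ * J := by
    rw [hε]
    field_simp
    ring
  have hIp : 4 * τ * J ≤ a * ∫ x in (0 : ℝ)..1, F x ^ 2 / x := by
    rw [← hεe]
    exact mul_le_mul_of_nonneg_left hlow ha0.le
  refine ⟨F, δ, hFs, hδp, hFz, ?_, ?_⟩
  · have h1 : 0 < 4 * τ * J := by positivity
    by_contra hh
    push Not at hh
    have h2 : a * ∫ x in (0 : ℝ)..1, F x ^ 2 / x ≤ 0 :=
      mul_nonpos_of_nonneg_of_nonpos ha0.le hh
    linarith
  · refine le_trans ?_ hIp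
    have hdc : Continuous (deriv F) := hFs.continuous_deriv (by simp)
    have h1 : ∫ x in (0 : ℝ)..1, deriv F x ^ 2 ≤ ∫ x in (0 : ℝ)..1, w₁ x ^ 2 :=
      intervalIntegral.integral_mono_on zero_le_one
        ((hdc.pow 2).intervalIntegrable _ _) ((hw1c.pow 2).intervalIntegrable _ _)
        fun x _ => hdF x
    rw [hI] at h1
    linarith

end Pool.Agent.H54.RK
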